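import Mathlib

/-!
# Topological groups with a chain of small subgroups

`Res G` : `G` splits into two disjoint dense sets.  For a group which is not resolvable and a chain
`𝒞` of subgroups covering it, near the identity all conjugates of a fixed element and all squares
lie in a member of the chain.
-/

set_option linter.unusedSectionVars false

open Set Filter Topology

namespace Pool.Agent.Helper548.Resolv

/-- 3-colouring of a permutation. -/
theorem three_colouring {α : Type*} (s : Equiv.Perm α) :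
    ∃ c : α → Fin 3, ∀ q, s q ≠ q → c (s q) ≠ c q := by
  classical
  obtain ⟨_, hwf⟩ : ∃ _ : LinearOrder α, WellFoundedLT α := exists_wellFoundedLT α
  have hex : ∀ a b : Fin 3, ∃ k : Fin 3, k ≠ a ∧ k ≠ b := by decide
  choose pick hp1 hp2 using hex
  let F : (x : α) → ((y : α) → y < x → Fin 3) → Fin 3 := fun x ih =>
    pick (if h : s x < x then ih _ h else 0) (if h : s.symm x < x then ih _ h else 0)
  let c : α → Fin 3 := WellFounded.fix (wellFounded_lt (α := α)) F
  have hc : ∀ x, c x = pick (if s x < x then c (s x) else 0)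
      (if s.symm x < x then c (s.symm x) else 0) := by
    intro x
    have h := WellFounded.fix_eq (wellFounded_lt (α := α)) F x
    simp only [F, dite_eq_ite] at h
    exact h
  refine ⟨c, fun q hq => ?_⟩
  rcases lt_or_gt_of_ne hq with h | h
  · have h1 := hp1 (if s q < q then c (s q) else 0) (if s.symm q < q then c (s.symm q) else 0)
    rw [← hc q, if_pos h] at h1
    exact h1.symm
  · have h1 := hp2 (if s (s q) < s q then c (s (s q)) else 0)
      (if s.symm (s q) < s q then c (s.symm (s q)) else 0)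
    rw [← hc (s q), Equiv.symm_apply_apply, if_pos h] at h1
    exact h1

variable {G : Type*} [Group G] [TopologicalSpace G]

/-- Two disjoint dense sets. -/
def Res (G : Type*) [TopologicalSpace G] : Prop := ∃ A : Set G, Dense A ∧ Dense Aᶜ

section
variable [IsTopologicalGroup G]

lemma tends_mul (c : G) : Tendsto (fun y : G => c * y) (𝓝 1) (𝓝 c) := by
  have : ContinuousAt (fun y : G => c * y) 1 := by fun_prop
  simpa using this.tendsto

lemma tends_conj (c : G) : Tendsto (fun y : G => c * y * c⁻¹) (𝓝 1) (𝓝 1) := by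
  have : ContinuousAt (fun y : G => c * y * c⁻¹) 1 := by fun_prop
  simpa using this.tendsto

lemma tends_inv : Tendsto (fun y : G => y⁻¹) (𝓝 1) (𝓝 1) := by
  have : ContinuousAt (fun y : G => y⁻¹) 1 := by fun_prop
  simpa using this.tendsto

lemma tends_sq : Tendsto (fun y : G => y * y) (𝓝 1) (𝓝 1) := by
  have : ContinuousAt (fun y : G => y * y) 1 := by fun_prop
  simpa using this.tendsto

/-- Colourings that are locally left invariant along a filter give disjoint dense sets. -/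
theorem res_of_filter (F : Filter G) (hF : F ≤ 𝓝 1) (c : G → Fin 3)
    (h1 : ∀ U ∈ F, ∃ v ∈ U, ∃ w ∈ U, c v ≠ c w)
    (h2 : ∀ g : G, ∀ᶠ v in F, c (g * v) = c v) : Res G := by
  have hij : ∃ i j : Fin 3, i ≠ j ∧ (∃ᶠ v in F, c v = i) ∧ (∃ᶠ v in F, c v = j) := by
    by_contra hcon
    push Not at hcon
    have hU : ∀ᶠ v in F, ∀ i : Fin 3, (¬ ∃ᶠ v in F, c v = i) → c v ≠ i := by
      rw [eventually_all]
      intro i
      by_cases hi : ∃ᶠ v in F, c v = i
      · exact Eventually.of_forall fun v h => absurd hi h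
      · have := not_frequently.1 hi
        filter_upwards [this] with v hv _ using hv
    obtain ⟨v, hv, w, hw, hne⟩ := h1 _ hU
    have hv' : ∃ᶠ z in F, c z = c v := by
      by_contra h
      exact hv (c v) h rfl
    have hw' : ∃ᶠ z in F, c z = c w := by
      by_contra h
      exact hw (c w) h rfl
    exact hw' (hcon _ _ hne hv')
  obtain ⟨i, j, hne, hi, hj⟩ := hij
  have dens : ∀ i : Fin 3, (∃ᶠ v in F, c v = i) → Dense {x | c x = i} := by
    intro i hi g
    rw [mem_closure_iff_frequently]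
    have h3 : ∃ᶠ v in 𝓝 (1:G), c (g * v) = i := by
      have h4 := hi.and_eventually (h2 g)
      refine (h4.mono ?_).filter_mono hF
      rintro v ⟨h5, h6⟩
      rw [h6, h5]
    exact (tends_mul g).frequently h3
  refine ⟨{x | c x = i}, dens i hi, (dens j hj).mono ?_⟩
  intro x hx hx'
  exact hne (hx'.symm.trans hx)

end

/-! ### Chains of subgroups -/

/-- The union of the members of the chain that do not contain `y`. -/
def K (C : Set (Subgroup G)) (y : G) : Subgroup G := sSup {D ∈ C | y ∉ D}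

variable {C : Set (Subgroup G)}

lemma mem_K (hC : IsChain (· ≤ ·) C) {y g : G} : g ∈ K C y ↔ g = 1 ∨ ∃ D ∈ C, y ∉ D ∧ g ∈ D := by
  unfold K
  rcases Set.eq_empty_or_nonempty {D ∈ C | y ∉ D} with he | hne
  · rw [he, sSup_empty, Subgroup.mem_bot]
    constructor
    · exact Or.inl
    · rintro (h | ⟨D, h1, h2, -⟩)
      · exact h
      · exact absurd (show D ∈ {D ∈ C | y ∉ D} from ⟨h1, h2⟩) (by rw [he]; exact notMem_empty _)
  · have hdir : DirectedOn (· ≤ ·) {D ∈ C | y ∉ D} :=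
      (hC.mono (sep_subset _ _)).directedOn
    rw [Subgroup.mem_sSup_of_directedOn hne hdir]
    constructor
    · rintro ⟨D, ⟨h1, h2⟩, h3⟩
      exact Or.inr ⟨D, h1, h2, h3⟩
    · rintro (h | ⟨D, h1, h2, h3⟩)
      · obtain ⟨D, hD⟩ := hne
        exact ⟨D, hD, h ▸ D.one_mem⟩
      · exact ⟨D, ⟨h1, h2⟩, h3⟩

lemma notMem_K (hC : IsChain (· ≤ ·) C) {y : G} (hy : y ≠ 1) : y ∉ K C y := by
  rw [mem_K hC]
  rintro (h | ⟨D, -, h1, h2⟩)
  · exact hy h
  · exact h1 h2

lemma le_K (hC : IsChain (· ≤ ·) C) {y : G} {D : Subgroup G} (hD : D ∈ C) (hy : y ∉ D) {g : G}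
    (hg : g ∈ D) : g ∈ K C y := (mem_K hC).2 (Or.inr ⟨D, hD, hy, hg⟩)

lemma K_congr {y y' : G} (h : ∀ D ∈ C, (y ∈ D ↔ y' ∈ D)) : K C y = K C y' := by
  unfold K
  congr 1
  ext D
  simp only [mem_ofPred_eq]
  constructor
  · rintro ⟨h1, h2⟩
    exact ⟨h1, fun h3 => h2 ((h D h1).2 h3)⟩
  · rintro ⟨h1, h2⟩
    exact ⟨h1, fun h3 => h2 ((h D h1).1 h3)⟩

lemma K_inv (y : G) : K C y⁻¹ = K C y := K_congr fun D _ => by simp

lemma K_mul (hC : IsChain (· ≤ ·) C) {y g : G} (hg : g ∈ K C y) : K C (g * y) = K C y := by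
  apply K_congr
  intro D hD
  rcases (mem_K hC).1 hg with h | ⟨E, hE, hyE, hgE⟩
  · rw [h, one_mul]
  · rcases hC.total hE hD with h | h
    · exact Subgroup.mul_mem_cancel_left D (h hgE)
    · constructor
      · intro h1
        exact absurd ((Subgroup.mul_mem_cancel_left E hgE).1 (h h1)) hyE
      · intro h1
        exact absurd (h h1) hyE

lemma K_conj (hC : IsChain (· ≤ ·) C) {y g : G} (hg : g ∈ K C y) :
    K C (g * y * g⁻¹) = K C y := by
  apply K_congr
  intro D hD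
  rcases (mem_K hC).1 hg with h | ⟨E, hE, hyE, hgE⟩
  · rw [h]; simp
  · have key : ∀ D : Subgroup G, g ∈ D → (g * y * g⁻¹ ∈ D ↔ y ∈ D) := by
      intro D hgD
      rw [Subgroup.mul_mem_cancel_right D (D.inv_mem hgD), Subgroup.mul_mem_cancel_left D hgD]
    rcases hC.total hE hD with h | h
    · exact key D (h hgE)
    · constructor
      · intro h1
        exact absurd ((key E hgE).1 (h h1)) hyE
      · intro h1
        exact absurd (h h1) hyE

/-- The filter of sets containing `{v ∈ V | key v ∉ D}` for a neighbourhood `V` and `D ∈ C`. -/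
def farFilter (hC : IsChain (· ≤ ·) C) (hne : C.Nonempty) (key : G → G) : Filter G where
  sets := {U | ∃ V ∈ 𝓝 (1:G), ∃ D ∈ C, ∀ v ∈ V, key v ∉ D → v ∈ U}
  univ_sets := by
    obtain ⟨D, hD⟩ := hne
    exact ⟨univ, univ_mem, D, hD, fun _ _ _ => mem_univ _⟩
  sets_of_superset := by
    rintro U U' ⟨V, hV, D, hD, h⟩ hUU'
    exact ⟨V, hV, D, hD, fun v hv hk => hUU' (h v hv hk)⟩
  inter_sets := by
    rintro U U' ⟨V, hV, D, hD, h⟩ ⟨V', hV', D', hD', h'⟩
    rcases hC.total hD hD' with hle | hle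
    · exact ⟨V ∩ V', inter_mem hV hV', D', hD', fun v hv hk =>
        ⟨h v hv.1 (fun hh => hk (hle hh)), h' v hv.2 hk⟩⟩
    · exact ⟨V ∩ V', inter_mem hV hV', D, hD, fun v hv hk =>
        ⟨h v hv.1 hk, h' v hv.2 (fun hh => hk (hle hh))⟩⟩

lemma mem_farFilter (hC : IsChain (· ≤ ·) C) (hne : C.Nonempty) (key : G → G) {U : Set G} :
    U ∈ farFilter hC hne key ↔ ∃ V ∈ 𝓝 (1:G), ∃ D ∈ C, ∀ v ∈ V, key v ∉ D → v ∈ U := Iff.rfl

variable [IsTopologicalGroup G]

theorem res_of_key (hC : IsChain (· ≤ ·) C) (hne : C.Nonempty) (key : G → G) (c : G → Fin 3)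
    (h1 : ∀ V ∈ 𝓝 (1:G), ∀ D ∈ C, ∃ v ∈ V, key v ∉ D ∧ ∃ w ∈ V, key w ∉ D ∧ c v ≠ c w)
    (h2 : ∀ g : G, ∃ V ∈ 𝓝 (1:G), ∃ D ∈ C, ∀ v ∈ V, key v ∉ D → c (g * v) = c v) : Res G := by
  apply res_of_filter (farFilter hC hne key) _ c
  · rintro U ⟨V, hV, D, hD, h⟩
    obtain ⟨v, hv, hvD, w, hw, hwD, hne⟩ := h1 V hV D hD
    exact ⟨v, h v hv hvD, w, h w hw hwD, hne⟩
  · intro g
    exact h2 g
  · intro U hU
    obtain ⟨D, hD⟩ := hne
    exact ⟨U, hU, D, hD, fun v hv _ => hv⟩

lemma exists_bigger (hC : IsChain (· ≤ ·) C) (hcov : ∀ g : G, ∃ D ∈ C, g ∈ D) {D : Subgroup G}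
    (hD : D ∈ C) (g : G) : ∃ E ∈ C, D ≤ E ∧ g ∈ E := by
  obtain ⟨E, hE, hgE⟩ := hcov g
  rcases hC.total hD hE with h | h
  · exact ⟨E, hE, h, hgE⟩
  · exact ⟨D, hD, le_rfl, h hgE⟩

/-- right multiplication by `a⁻¹` on sets -/
def shift (a : G) : Equiv.Perm (Set G) where
  toFun S := {z | z * a ∈ S}
  invFun S := {z | z * a⁻¹ ∈ S}
  left_inv S := by ext z; simp
  right_inv S := by ext z; simp

/-- Conjugates of a fixed element. -/
theorem step1 (hres : ¬ Res G) (hC : IsChain (· ≤ ·) C) (hcov : ∀ g : G, ∃ D ∈ C, g ∈ D) (a : G) :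
    ∃ D ∈ C, ∃ V ∈ 𝓝 (1:G), ∀ v ∈ V, v * a * v⁻¹ ∈ D := by
  by_contra hcon
  push Not at hcon
  have hne : C.Nonempty := by
    obtain ⟨D, hD, -⟩ := hcov 1
    exact ⟨D, hD⟩
  have ha : a ≠ 1 := by
    rintro rfl
    obtain ⟨D, hD, h1D⟩ := hcov 1
    obtain ⟨v, -, hv⟩ := hcon D hD univ univ_mem
    exact hv (by simpa using h1D)
  obtain ⟨χ, hχ⟩ := three_colouring (shift a)
  let key : G → G := fun v => v * a * v⁻¹
  let F : G → Set G := fun x => {z | z * x⁻¹ ∈ K C (key x)}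
  have hkey1 : ∀ x, key x ≠ 1 := by
    intro x h
    apply ha
    have : a = x⁻¹ * (x * a * x⁻¹) * x := by group
    rw [this, show x * a * x⁻¹ = 1 from h]; group
  have hFg : ∀ g x, g ∈ K C (key x) → F (g * x) = F x := by
    intro g x hg
    have e1 : key (g * x) = g * key x * g⁻¹ := by simp only [key]; group
    have e2 : K C (key (g * x)) = K C (key x) := by rw [e1, K_conj hC hg]
    ext z
    simp only [F, mem_ofPred_eq, e2]
    have e3 : z * (g * x)⁻¹ = (z * x⁻¹) * g⁻¹ := by group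
    rw [e3, Subgroup.mul_mem_cancel_right _ (Subgroup.inv_mem _ hg)]
  have hFa : ∀ x, F (x * a⁻¹) = shift a (F x) := by
    intro x
    have e1 : key (x * a⁻¹) = key x := by simp only [key]; group
    ext z
    simp only [F, shift, Equiv.coe_fn_mk, mem_ofPred_eq, e1]
    have e3 : z * (x * a⁻¹)⁻¹ = z * a * x⁻¹ := by group
    rw [e3]
  have hFne : ∀ x, shift a (F x) ≠ F x := by
    intro x h
    have h1 : x ∈ F x := by simp only [F, mem_ofPred_eq, mul_inv_cancel]; exact Subgroup.one_mem _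
    rw [← h] at h1
    have h2 : x * a * x⁻¹ ∈ K C (key x) := h1
    exact notMem_K hC (hkey1 x) h2
  apply hres
  refine res_of_key hC hne key (fun x => χ (F x)) ?_ ?_
  · intro V hV D hD
    obtain ⟨E, hE, hDE, haE⟩ := exists_bigger hC hcov hD a
    obtain ⟨v, hv, hvE⟩ := hcon E hE (V ∩ (fun y => a * y * a⁻¹) ⁻¹' V)
      (inter_mem hV (tends_conj a hV))
    refine ⟨v, hv.1, fun h => hvE (hDE h), a * v * a⁻¹, hv.2, ?_, ?_⟩
    · intro h
      apply hvE
      have e1 : key (a * v * a⁻¹) = a * (v * a * v⁻¹) * a⁻¹ := by simp only [key]; group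
      have h2 : a * (v * a * v⁻¹) * a⁻¹ ∈ E := by rw [← e1]; exact hDE h
      rwa [Subgroup.mul_mem_cancel_right E (E.inv_mem haE),
        Subgroup.mul_mem_cancel_left E haE] at h2
    · have e1 : key (v * a⁻¹) = key v := by simp only [key]; group
      have haK : a ∈ K C (key (v * a⁻¹)) := by rw [e1]; exact le_K hC hE hvE haE
      have e2 : F (a * v * a⁻¹) = shift a (F v) := by
        rw [mul_assoc, hFg a _ haK, hFa]
      show χ (F v) ≠ χ (F (a * v * a⁻¹))
      rw [e2]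
      exact (hχ _ (hFne v)).symm
  · intro g
    obtain ⟨D, hD, hgD⟩ := hcov g
    refine ⟨univ, univ_mem, D, hD, fun v _ hv => ?_⟩
    show χ (F (g * v)) = χ (F v)
    rw [hFg g v (le_K hC hD hv hgD)]

/-- swapping the two coordinates and inverting -/
def swapInv (G : Type*) [Group G] : Equiv.Perm (Set G × Set G) where
  toFun S := ({z | z⁻¹ ∈ S.2}, {z | z⁻¹ ∈ S.1})
  invFun S := ({z | z⁻¹ ∈ S.2}, {z | z⁻¹ ∈ S.1})
  left_inv S := by ext z <;> simp
  right_inv S := by ext z <;> simp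

/-- Squares. -/
theorem step2 (hres : ¬ Res G) (hC : IsChain (· ≤ ·) C) (hcov : ∀ g : G, ∃ D ∈ C, g ∈ D) :
    ∃ D ∈ C, ∃ V ∈ 𝓝 (1:G), ∀ v ∈ V, v * v ∈ D := by
  by_contra hcon
  push Not at hcon
  have hne : C.Nonempty := by
    obtain ⟨D, hD, -⟩ := hcov 1
    exact ⟨D, hD⟩
  obtain ⟨χ, hχ⟩ := three_colouring (swapInv G)
  let key : G → G := fun v => v * v
  let F : G → Set G × Set G := fun x =>
    ({z | z * x⁻¹ ∈ K C (key x)}, {z | x⁻¹ * z ∈ K C (key x)})
  have hkinv : ∀ x, K C (key x⁻¹) = K C (key x) := by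
    intro x
    have : key x⁻¹ = (key x)⁻¹ := by simp only [key]; group
    rw [this, K_inv]
  have hFinv : ∀ x, F x⁻¹ = swapInv G (F x) := by
    intro x
    have h0 := hkinv x
    ext z
    · simp only [F, swapInv, Equiv.coe_fn_mk, mem_ofPred_eq, h0]
      have e : z * x⁻¹⁻¹ = (x⁻¹ * z⁻¹)⁻¹ := by group
      rw [e, Subgroup.inv_mem_iff]
    · simp only [F, swapInv, Equiv.coe_fn_mk, mem_ofPred_eq, h0]
      have e : x⁻¹⁻¹ * z = (z⁻¹ * x⁻¹)⁻¹ := by group
      rw [e, Subgroup.inv_mem_iff]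
  have hFne : ∀ x, x * x ≠ 1 → swapInv G (F x) ≠ F x := by
    intro x hx h
    have h1 : x ∈ (F x).1 := by
      simp only [F, mem_ofPred_eq, mul_inv_cancel]; exact Subgroup.one_mem _
    rw [← h] at h1
    have h2 : x⁻¹ * x⁻¹ ∈ K C (key x) := h1
    have h3 : x * x ∈ K C (key x) := by
      have := Subgroup.inv_mem _ h2
      have e : (x⁻¹ * x⁻¹)⁻¹ = x * x := by rw [mul_inv_rev, inv_inv]
      rwa [e] at this
    exact notMem_K hC hx h3
  apply hres
  refine res_of_key hC hne key (fun x => χ (F x)) ?_ ?_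
  · intro V hV D hD
    obtain ⟨v, hv, hvD⟩ := hcon D hD (V ∩ (fun y => y⁻¹) ⁻¹' V) (inter_mem hV (tends_inv hV))
    refine ⟨v, hv.1, hvD, v⁻¹, hv.2, ?_, ?_⟩
    · intro h
      apply hvD
      have e : key v⁻¹ = (v * v)⁻¹ := by simp only [key]; group
      rw [e, Subgroup.inv_mem_iff] at h
      exact h
    · show χ (F v) ≠ χ (F v⁻¹)
      rw [hFinv]
      refine (hχ _ (hFne v ?_)).symm
      intro h
      apply hvD
      rw [h]
      exact D.one_mem
  · intro g
    obtain ⟨D0, hD0, V0, hV0, hg0⟩ := step1 hres hC hcov g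
    obtain ⟨D, hD, hD0D, hgD⟩ := exists_bigger hC hcov hD0 g
    refine ⟨V0 ∩ (fun y => y⁻¹) ⁻¹' V0, inter_mem hV0 (tends_inv hV0), D, hD, ?_⟩
    rintro v ⟨hv1, hv2⟩ hvD
    have c1 : v * g * v⁻¹ ∈ D := hD0D (hg0 v hv1)
    have c2 : v⁻¹ * g * v ∈ D := by
      have := hD0D (hg0 v⁻¹ hv2)
      simpa using this
    have hcK : g * (v * g * v⁻¹) ∈ K C (key v) := le_K hC hD hvD (D.mul_mem hgD c1)
    have e1 : key (g * v) = (g * (v * g * v⁻¹)) * key v := by simp only [key]; group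
    have e2 : K C (key (g * v)) = K C (key v) := by rw [e1, K_mul hC hcK]
    have hgK : g ∈ K C (key v) := le_K hC hD hvD hgD
    have hgK' : v⁻¹ * g * v ∈ K C (key v) := le_K hC hD hvD c2
    have : F (g * v) = F v := by
      ext z
      · simp only [F, mem_ofPred_eq, e2]
        have e3 : z * (g * v)⁻¹ = (z * v⁻¹) * g⁻¹ := by group
        rw [e3, Subgroup.mul_mem_cancel_right _ (Subgroup.inv_mem _ hgK)]
      · simp only [F, mem_ofPred_eq, e2]
        have e3 : (g * v)⁻¹ * z = (v⁻¹ * g * v)⁻¹ * (v⁻¹ * z) := by group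
        rw [e3, Subgroup.mul_mem_cancel_left _ (Subgroup.inv_mem _ hgK')]
    show χ (F (g * v)) = χ (F v)
    rw [this]

end Pool.Agent.Helper548.Resolv
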