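import Mathlib
import Pool.Agent.Helper548.Resolv.Steps

/-!
# From countably many squares near the identity to a countable normal subgroup
-/

set_option linter.unusedSectionVars false

open Set Filter Topology

namespace Pool.Agent.Helper548.Resolv

universe u

lemma mk_closure_le {G : Type u} [Group G] (S : Set G) :
    Cardinal.mk (Subgroup.closure S) ≤ max (Cardinal.mk S) Cardinal.aleph0 := by
  have h2 : ((FreeGroup.lift (fun c : S => (c : G))).range : Subgroup G) = Subgroup.closure S := by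
    rw [FreeGroup.range_lift_eq_closure]
    simp
  rw [← h2]
  have h3 : Cardinal.mk (FreeGroup S) ≤ max (Cardinal.mk S) Cardinal.aleph0 := by
    rcases isEmpty_or_nonempty S with he | hne
    · refine le_trans ?_ (le_max_right _ _)
      haveI : Countable (FreeGroup S) := inferInstance
      exact Cardinal.mk_le_aleph0
    · rw [Cardinal.mk_freeGroup]
  exact (Cardinal.mk_le_of_surjective
    (MonoidHom.rangeRestrict_surjective (FreeGroup.lift (fun c : S => (c : G))))).trans h3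

lemma closure_countable {G : Type u} [Group G] {S : Set G} (hS : S.Countable) :
    (Subgroup.closure S : Set G).Countable := by
  have h := mk_closure_le S
  have h2 : Cardinal.mk S ≤ Cardinal.aleph0 := Cardinal.mk_le_aleph0_iff.2 hS
  rw [max_eq_right h2] at h
  exact Cardinal.mk_le_aleph0_iff.1 h

variable {G : Type u} [Group G] [TopologicalSpace G] [IsTopologicalGroup G]

theorem step3 (V0 : Set G) (hV0 : V0 ∈ 𝓝 (1:G)) (hsq : ((fun v => v * v) '' V0).Countable) :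
    ∃ H : Subgroup G, IsOpen (H : Set G) ∧ ∃ N : Subgroup H, N.Normal ∧ (N : Set H).Countable ∧
      ∀ x y : H, x⁻¹ * (y * x * y⁻¹) ∈ N := by
  classical
  -- a symmetric neighbourhood
  obtain ⟨W, hW, hWW⟩ : ∃ W ∈ 𝓝 (1:G), ∀ x ∈ W, ∀ y ∈ W, x * y ∈ V0 := by
    have h1 : Tendsto (fun p : G × G => p.1 * p.2) (𝓝 (1, 1)) (𝓝 1) := by
      have : Continuous (fun p : G × G => p.1 * p.2) := by fun_prop
      have h := this.tendsto (1, 1)
      simpa using h
    have h2 := h1 hV0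
    rw [nhds_prod_eq, mem_map, mem_prod_same_iff] at h2
    obtain ⟨V, hV, hVs⟩ := h2
    exact ⟨V, hV, fun x hx y hy => hVs (mk_mem_prod hx hy)⟩
  set V1 : Set G := W ∩ (fun y => y⁻¹) ⁻¹' W with hV1def
  have hV1 : V1 ∈ 𝓝 (1:G) := inter_mem hW (tends_inv hW)
  have hV1inv : ∀ x ∈ V1, x⁻¹ ∈ V1 := by
    rintro x ⟨h1, h2⟩
    exact ⟨h2, by simpa using h1⟩
  have h1V1 : (1:G) ∈ V1 := mem_of_mem_nhds hV1
  have hV1V0 : ∀ x ∈ V1, ∀ y ∈ V1, x * y ∈ V0 := fun x hx y hy => hWW x hx.1 y hy.1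
  set H := Subgroup.closure V1 with hH
  have hHopen : IsOpen (H : Set G) :=
    H.isOpen_of_mem_nhds (mem_of_superset hV1 Subgroup.subset_closure)
  have hV1H : ∀ x ∈ V1, x ∈ H := fun x hx => Subgroup.subset_closure hx
  -- the countable group `K1`
  set T0 : Set G := {t | ∃ x ∈ V1, ∃ y ∈ V1, t = (x * y) * (x * y)} with hT0
  have hT0c : T0.Countable := by
    refine hsq.mono ?_
    rintro t ⟨x, hx, y, hy, rfl⟩
    exact ⟨x * y, hV1V0 x hx y hy, rfl⟩
  have hT0H : ∀ t ∈ T0, t ∈ H := by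
    rintro t ⟨x, hx, y, hy, rfl⟩
    have := H.mul_mem (hV1H x hx) (hV1H y hy)
    exact H.mul_mem this this
  set K1 := Subgroup.closure T0 with hK1
  have hK1c : (K1 : Set G).Countable := closure_countable hT0c
  have hsqK : ∀ x ∈ V1, x * x ∈ K1 := by
    intro x hx
    apply Subgroup.subset_closure
    exact ⟨x, hx, 1, h1V1, by simp⟩
  have hcomm : ∀ v ∈ V1, ∀ w ∈ V1, v⁻¹ * (w * v * w⁻¹) ∈ K1 := by
    intro v hv w hw
    have e : v⁻¹ * (w * v * w⁻¹) = (v * v)⁻¹ * ((v * w) * (v * w)) * (w * w)⁻¹ := by group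
    rw [e]
    refine K1.mul_mem (K1.mul_mem (K1.inv_mem (hsqK v hv)) ?_) (K1.inv_mem (hsqK w hw))
    exact Subgroup.subset_closure ⟨v, hv, w, hw, rfl⟩
  -- conjugates of elements of `H` by elements of `V1`
  have hconj : ∀ a ∈ H, ((fun w => w * a * w⁻¹) '' V1).Countable := by
    intro a ha
    refine Subgroup.closure_induction (p := fun a _ => ((fun w => w * a * w⁻¹) '' V1).Countable)
      ?_ ?_ ?_ ?_ ha
    · intro v hv
      refine (hK1c.image (fun k => v * k)).mono ?_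
      rintro _ ⟨w, hw, rfl⟩
      exact ⟨v⁻¹ * (w * v * w⁻¹), hcomm v hv w hw, by simp⟩
    · refine (countable_singleton (1:G)).mono ?_
      rintro _ ⟨w, hw, rfl⟩
      simp
    · intro a b _ _ iha ihb
      refine (iha.image2 ihb (fun x y => x * y)).mono ?_
      rintro _ ⟨w, hw, rfl⟩
      exact ⟨w * a * w⁻¹, ⟨w, hw, rfl⟩, w * b * w⁻¹, ⟨w, hw, rfl⟩, by group⟩
    · intro a _ iha
      refine (iha.image (fun x => x⁻¹)).mono ?_
      rintro _ ⟨w, hw, rfl⟩
      exact ⟨w * a * w⁻¹, ⟨w, hw, rfl⟩, by group⟩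
  -- the closure of `T0` under conjugation by `V1`
  let Φ : Set G → Set G := fun T => ⋃ t ∈ T, (fun w => w * t * w⁻¹) '' V1
  let T : ℕ → Set G := fun n => Nat.rec T0 (fun _ S => Φ S) n
  have hTs : ∀ n, T (n+1) = Φ (T n) := fun n => rfl
  have hT : ∀ n, (T n).Countable ∧ ∀ t ∈ T n, t ∈ H := by
    intro n
    induction n with
    | zero => exact ⟨hT0c, hT0H⟩
    | succ n ih =>
      rw [hTs]
      refine ⟨ih.1.biUnion fun t ht => hconj t (ih.2 t ht), ?_⟩
      intro t ht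
      simp only [Φ, mem_iUnion] at ht
      obtain ⟨s, hs, w, hw, rfl⟩ := ht
      exact H.mul_mem (H.mul_mem (hV1H w hw) (ih.2 s hs)) (H.inv_mem (hV1H w hw))
  set TT : Set G := ⋃ n, T n with hTT
  have hTTc : TT.Countable := countable_iUnion fun n => (hT n).1
  have hTTH : ∀ t ∈ TT, t ∈ H := by
    intro t ht
    obtain ⟨n, hn⟩ := mem_iUnion.1 ht
    exact (hT n).2 t hn
  have hTTconj : ∀ t ∈ TT, ∀ w ∈ V1, w * t * w⁻¹ ∈ TT := by
    intro t ht w hw
    obtain ⟨n, hn⟩ := mem_iUnion.1 ht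
    refine mem_iUnion.2 ⟨n+1, ?_⟩
    rw [hTs]
    simp only [Φ, mem_iUnion]
    exact ⟨t, hn, w, hw, rfl⟩
  set M := Subgroup.closure TT with hM
  have hMc : (M : Set G).Countable := closure_countable hTTc
  have hMH : M ≤ H := (Subgroup.closure_le H).2 hTTH
  have hK1M : K1 ≤ M := by
    apply Subgroup.closure_mono
    intro t ht
    exact mem_iUnion.2 ⟨0, ht⟩
  have hMconj : ∀ w ∈ V1, ∀ m ∈ M, w * m * w⁻¹ ∈ M := by
    intro w hw m hm
    refine Subgroup.closure_induction (p := fun m _ => w * m * w⁻¹ ∈ M) ?_ ?_ ?_ ?_ hm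
    · intro t ht
      exact Subgroup.subset_closure (hTTconj t ht w hw)
    · simp
    · intro a b _ _ ha hb
      have := M.mul_mem ha hb
      have e : w * a * w⁻¹ * (w * b * w⁻¹) = w * (a * b) * w⁻¹ := by group
      rwa [e] at this
    · intro a _ ha
      have := M.inv_mem ha
      have e : (w * a * w⁻¹)⁻¹ = w * a⁻¹ * w⁻¹ := by group
      rwa [e] at this
  have hMconjH2 : ∀ h ∈ H, ∀ m ∈ M, h * m * h⁻¹ ∈ M ∧ h⁻¹ * m * h ∈ M := by
    intro h hh
    refine Subgroup.closure_induction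
      (p := fun h _ => ∀ m ∈ M, h * m * h⁻¹ ∈ M ∧ h⁻¹ * m * h ∈ M) ?_ ?_ ?_ ?_ hh
    · intro w hw m hm
      refine ⟨hMconj w hw m hm, ?_⟩
      have := hMconj w⁻¹ (hV1inv w hw) m hm
      simpa using this
    · intro m hm
      simpa using hm
    · intro a b _ _ ha hb m hm
      refine ⟨?_, ?_⟩
      · have := (ha _ (hb m hm).1).1
        have e : a * (b * m * b⁻¹) * a⁻¹ = a * b * m * (a * b)⁻¹ := by group
        rwa [e] at this
      · have := (hb _ (ha m hm).2).2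
        have e : b⁻¹ * (a⁻¹ * m * a) * b = (a * b)⁻¹ * m * (a * b) := by group
        rwa [e] at this
    · intro a _ ha m hm
      refine ⟨?_, ?_⟩
      · simpa using (ha m hm).2
      · simpa using (ha m hm).1
  have hMconjH : ∀ h ∈ H, ∀ m ∈ M, h * m * h⁻¹ ∈ M := fun h hh m hm => (hMconjH2 h hh m hm).1
  -- all commutators of `H` lie in `M`
  have hcommV : ∀ x ∈ V1, ∀ y ∈ V1, x⁻¹ * (y * x * y⁻¹) ∈ M := fun x hx y hy =>
    hK1M (hcomm x hx y hy)
  have hc1 : ∀ y ∈ V1, ∀ x ∈ H, x⁻¹ * (y * x * y⁻¹) ∈ M := by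
    intro y hy x hx
    refine Subgroup.closure_induction (p := fun x _ => x⁻¹ * (y * x * y⁻¹) ∈ M) ?_ ?_ ?_ ?_ hx
    · intro x hx
      exact hcommV x hx y hy
    · simp
    · intro a b ha hb iha ihb
      have h1 := hMconjH b⁻¹ (H.inv_mem hb) _ iha
      have e : (a * b)⁻¹ * (y * (a * b) * y⁻¹) =
          (b⁻¹ * (a⁻¹ * (y * a * y⁻¹)) * b⁻¹⁻¹) * (b⁻¹ * (y * b * y⁻¹)) := by group
      rw [e]
      exact M.mul_mem h1 ihb
    · intro a ha iha
      have h1 := hMconjH a ha _ (M.inv_mem iha)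
      have e : a⁻¹⁻¹ * (y * a⁻¹ * y⁻¹) = a * (a⁻¹ * (y * a * y⁻¹))⁻¹ * a⁻¹ := by group
      rw [e]
      exact h1
  have hc2 : ∀ y ∈ H, ∀ x ∈ H, x⁻¹ * (y * x * y⁻¹) ∈ M := by
    intro y hy
    refine Subgroup.closure_induction (p := fun y _ => ∀ x ∈ H, x⁻¹ * (y * x * y⁻¹) ∈ M)
      ?_ ?_ ?_ ?_ hy
    · intro y hy x hx
      exact hc1 y hy x hx
    · intro x hx
      simp
    · intro a b ha hb iha ihb x hx
      have hbx : b * x * b⁻¹ ∈ H := H.mul_mem (H.mul_mem hb hx) (H.inv_mem hb)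
      have h1 := ihb x hx
      have h2 := iha (b * x * b⁻¹) hbx
      have e : x⁻¹ * (a * b * x * (a * b)⁻¹) =
          (x⁻¹ * (b * x * b⁻¹)) * ((b * x * b⁻¹)⁻¹ * (a * (b * x * b⁻¹) * a⁻¹)) := by group
      rw [e]
      exact M.mul_mem h1 h2
    · intro a ha iha x hx
      have hax : a⁻¹ * x * a ∈ H := H.mul_mem (H.mul_mem (H.inv_mem ha) hx) ha
      have h1 := iha (a⁻¹ * x * a) hax
      have e : x⁻¹ * (a⁻¹ * x * a⁻¹⁻¹) =
          ((a⁻¹ * x * a)⁻¹ * (a * (a⁻¹ * x * a) * a⁻¹))⁻¹ := by group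
      rw [e]
      exact M.inv_mem h1
  refine ⟨H, hHopen, M.subgroupOf H, ⟨?_⟩, ?_, ?_⟩
  · intro n hn g
    rw [Subgroup.mem_subgroupOf] at hn ⊢
    simpa using hMconjH g g.2 n hn
  · have : ((M.subgroupOf H : Subgroup H) : Set H) = (fun x : H => (x : G)) ⁻¹' (M : Set G) := by
      ext x
      simp [Subgroup.mem_subgroupOf]
    rw [this]
    exact hMc.preimage Subtype.val_injective
  · intro x y
    rw [Subgroup.mem_subgroupOf]
    simpa using hc2 y y.2 x x.2

end Pool.Agent.Helper548.Resolv
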