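import Mathlib
import Pool.Agent.Helper548.Resolv.Small
import Pool.Agent.Helper548.R473.Struct

/-!
# Every group topology without a partition into two dense sets has a countable neighbourhood of `1`
-/

set_option linter.unusedSectionVars false

open Set Filter Topology

namespace Pool.Agent.Helper548.Resolv

universe u

/-- An uncountable group is covered by a chain of subgroups of smaller cardinality. -/
theorem exists_small_chain (G : Type u) [Group G] (h : Cardinal.aleph0 < Cardinal.mk G) :
    ∃ C : Set (Subgroup G), IsChain (· ≤ ·) C ∧ (∀ g, ∃ D ∈ C, g ∈ D) ∧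
      ∀ D ∈ C, Cardinal.mk D < Cardinal.mk G := by
  obtain ⟨_, _, hord⟩ := Cardinal.exists_ord_eq_type_lt G
  refine ⟨range fun x : G => Subgroup.closure (Iic x), ?_, ?_, ?_⟩
  · rintro _ ⟨x, rfl⟩ _ ⟨y, rfl⟩ _
    rcases le_total x y with hxy | hxy
    · exact Or.inl (Subgroup.closure_mono (Iic_subset_Iic.2 hxy))
    · exact Or.inr (Subgroup.closure_mono (Iic_subset_Iic.2 hxy))
  · intro g
    exact ⟨_, ⟨g, rfl⟩, Subgroup.subset_closure (self_mem_Iic)⟩
  · rintro _ ⟨x, rfl⟩
    refine (mk_closure_le _).trans_lt (max_lt ?_ h)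
    exact Cardinal.mk_Iic_lt x hord h.le

/-- Every group topology without a partition into two dense sets has a countable neighbourhood of
the identity. -/
theorem good_aux (κ : Cardinal.{u}) : ∀ (G : Type u) [Group G], Cardinal.mk G = κ →
    H548R.Good G := by
  induction κ using WellFoundedLT.induction with
  | ind κ ih =>
  intro G _ hκ _ _ hG
  by_contra hcon
  have hres : ¬ Res G := hG
  have hunc : Cardinal.aleph0 < Cardinal.mk G := by
    by_contra h
    push Not at h
    apply hcon
    have : Countable G := Cardinal.mk_le_aleph0_iff.1 h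
    exact ⟨univ, univ_mem, countable_univ⟩
  obtain ⟨C, hC, hcov, hsmall⟩ := exists_small_chain G hunc
  obtain ⟨D, hD, V, hV, hVD⟩ := step2 hres hC hcov
  -- a neighbourhood of `1` whose trace on `D` is countable
  have hDgood : H548R.Good D := ih _ (hκ ▸ hsmall D hD) D rfl
  have hDres : H548R.NoRes D := fun h => hG (H548R.res_of_subgroup D h)
  obtain ⟨U, hU, hUc⟩ := hDgood hDres
  rw [nhds_subtype_eq_comap, mem_comap] at hU
  obtain ⟨S, hS, hSU⟩ := hU
  have hSc : (S ∩ (D : Set G)).Countable := by
    refine (hUc.image Subtype.val).mono ?_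
    rintro x ⟨h1, h2⟩
    exact ⟨⟨x, h2⟩, hSU h1, rfl⟩
  -- shrink `V`
  obtain ⟨H, hHo, N, hNn, hNc, hcomm⟩ := step3 (V ∩ (fun y : G => y * y) ⁻¹' S)
    (inter_mem hV (tends_sq hS)) (by
      refine hSc.mono ?_
      rintro _ ⟨v, ⟨hv1, hv2⟩, rfl⟩
      exact ⟨hv2, hVD v hv1⟩)
  have hHgood : H548R.Good H := by
    have hNc' : Countable N := hNc.to_subtype
    have h1 : H548R.Good N := by
      intro _ _
      exact H548R.good_of_countable
    have h2 : ∀ x y : H ⧸ N, x * y = y * x := by
      intro x y
      obtain ⟨x, rfl⟩ := QuotientGroup.mk_surjective x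
      obtain ⟨y, rfl⟩ := QuotientGroup.mk_surjective y
      rw [← QuotientGroup.mk_mul, ← QuotientGroup.mk_mul, QuotientGroup.eq]
      have e : (x * y)⁻¹ * (y * x) = (x⁻¹ * (y⁻¹ * x * y⁻¹⁻¹))⁻¹ := by group
      rw [e]
      exact N.inv_mem (hcomm x y⁻¹)
    have h3 : H548R.Good (H ⧸ N) := by
      intro _ _
      exact H548R.good_of_comm h2
    intro _ _
    exact H548R.good_of_extension N h1 h3
  have hHres : H548R.NoRes H := fun h => hG (H548R.res_of_subgroup H h)
  obtain ⟨W, hW, hWc⟩ := hHgood hHres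
  apply hcon
  refine ⟨Subtype.val '' W, ?_, hWc.image _⟩
  exact (hHo.isOpenEmbedding_subtypeVal.image_mem_nhds).2 hW

theorem good_all (G : Type u) [Group G] : H548R.Good G := good_aux _ G rfl

end Pool.Agent.Helper548.Resolv
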